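import Mathlib

/-! # Linear algebra and counting for TP-7 (MP_7123bd_ag) -/

namespace Pool.Agent.Helper93.TP

namespace IneqAux

open Module Submodule Finset

/-- any three of the vectors are independent -/
def Indep {K : ℕ} (m : Fin K → Fin 3 → ℂ) : Prop :=
  ∀ a b c, a ≠ b → a ≠ c → b ≠ c → LinearIndependent ℂ ![m a, m b, m c]

variable {K : ℕ} {m : Fin K → Fin 3 → ℂ}

theorem fr_le (T : Submodule ℂ (Fin 3 → ℂ)) : finrank ℂ T ≤ 3 := by
  have := T.finrank_le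
  simpa using this

theorem toolA (hm : Indep m) {T : Submodule ℂ (Fin 3 → ℂ)} (hT : finrank ℂ T ≤ 2) {a b c : Fin K}
    (hab : a ≠ b) (hac : a ≠ c) (hbc : b ≠ c) (ha : m a ∈ T) (hb : m b ∈ T) (hc : m c ∈ T) :
    False := by
  have h2 := finrank_span_eq_card (hm a b c hab hac hbc)
  have h3 : span ℂ (Set.range ![m a, m b, m c]) ≤ T := by
    rw [span_le]
    rintro _ ⟨i, rfl⟩
    fin_cases i
    · exact ha
    · exact hb
    · exact hc
  have h4 := Submodule.finrank_mono h3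
  rw [h2] at h4
  simp at h4
  omega

theorem exists_third (hK : 3 ≤ K) (a b : Fin K) : ∃ c, c ≠ a ∧ c ≠ b := by
  have h : (({a, b} : Finset (Fin K))ᶜ).Nonempty := by
    rw [← Finset.card_pos, Finset.card_compl, Fintype.card_fin]
    have := Finset.card_le_two (a := a) (b := b)
    omega
  obtain ⟨c, hc⟩ := h
  simp at hc
  exact ⟨c, hc⟩

theorem toolB (hK : 3 ≤ K) (hm : Indep m) {T : Submodule ℂ (Fin 3 → ℂ)} (hT : finrank ℂ T ≤ 1)
    {a b : Fin K} (hab : a ≠ b) (ha : m a ∈ T) (hb : m b ∈ T) : False := by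
  obtain ⟨c, hca, hcb⟩ := exists_third hK a b
  have h1 : finrank ℂ (T ⊔ span ℂ {m c} : Submodule ℂ (Fin 3 → ℂ)) ≤ 2 := by
    have h2 := Submodule.finrank_add_le_finrank_add_finrank T (span ℂ {m c})
    have h3 : finrank ℂ (span ℂ {m c}) ≤ 1 := by
      have := finrank_span_le_card (R := ℂ) ({m c} : Set (Fin 3 → ℂ))
      simpa using this
    omega
  exact toolA hm h1 hab (Ne.symm hca) (Ne.symm hcb) (mem_sup_left ha) (mem_sup_left hb)
    (mem_sup_right (mem_span_singleton_self _))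

theorem m_ne (hK : 3 ≤ K) (hm : Indep m) (a : Fin K) : m a ≠ 0 := by
  obtain ⟨b, hb, -⟩ := exists_third hK a a
  obtain ⟨c, hca, hcb⟩ := exists_third hK a b
  exact (hm a b c (Ne.symm hb) (Ne.symm hca) (Ne.symm hcb)).ne_zero 0

/-- the defect -/
noncomputable def df (T : Submodule ℂ (Fin 3 → ℂ)) : ℕ := 3 - finrank ℂ T

theorem df_anti {S T : Submodule ℂ (Fin 3 → ℂ)} (h : S ≤ T) : df T ≤ df S := by
  unfold df
  have := Submodule.finrank_mono h
  omega

theorem df_cast (T : Submodule ℂ (Fin 3 → ℂ)) : ((df T : ℕ) : ℝ) = 3 - (finrank ℂ T : ℝ) := by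
  unfold df
  rw [Nat.cast_sub (fr_le T)]
  norm_num

theorem df_eq {S T : Submodule ℂ (Fin 3 → ℂ)} (h : S ≤ T) (h2 : df S ≤ df T) : S = T := by
  unfold df at h2
  have h3 := fr_le S
  have h4 := fr_le T
  exact Submodule.eq_of_le_of_finrank_le h (by omega)

theorem sum_le_one {ι : Type*} (s : Finset ι) (x : ι → ℕ) (h1 : ∀ i ∈ s, x i ≤ 1)
    (h2 : ∀ i ∈ s, ∀ j ∈ s, x i ≠ 0 → x j ≠ 0 → i = j) : ∑ i ∈ s, x i ≤ 1 := by
  classical
  by_cases h : ∃ i ∈ s, x i ≠ 0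
  · obtain ⟨i, hi, hx⟩ := h
    rw [Finset.sum_eq_single_of_mem i hi]
    · exact h1 i hi
    · intro j hj hji
      by_contra hxj
      exact hji (h2 j hj i hi hxj hx)
  · push Not at h
    rw [Finset.sum_eq_zero h]
    exact Nat.zero_le 1

variable (Θ0 : Submodule ℂ (Fin 3 → ℂ)) (Θ : Fin K → Submodule ℂ (Fin 3 → ℂ))

/-- number of classes with defect one -/
noncomputable def n1 : ℕ := (univ.filter fun i => df (Θ i) = 1).card

/-- number of classes with defect two -/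
noncomputable def n2 : ℕ := (univ.filter fun i => df (Θ i) = 2).card

theorem n1_eq : n1 Θ = ∑ i, if df (Θ i) = 1 then 1 else 0 := by
  rw [n1, Finset.card_filter]

theorem n2_eq : n2 Θ = ∑ i, if df (Θ i) = 2 then 1 else 0 := by
  rw [n2, Finset.card_filter]

theorem n12_le : n1 Θ + n2 Θ ≤ K := by
  rw [n1_eq, n2_eq, ← Finset.sum_add_distrib]
  calc ∑ i, ((if df (Θ i) = 1 then 1 else 0) + (if df (Θ i) = 2 then 1 else 0))
      ≤ ∑ _i : Fin K, 1 := Finset.sum_le_sum fun i _ => by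
        split_ifs <;> omega
    _ = K := by simp

theorem df_le_two (hK : 3 ≤ K) (hm : Indep m) (hΘ : ∀ i, m i ∈ Θ i) (i : Fin K) :
    df (Θ i) ≤ 2 := by
  have h1 : finrank ℂ (Θ i) ≠ 0 := by
    intro h
    rw [Submodule.finrank_eq_zero] at h
    have h2 := hΘ i
    rw [h, Submodule.mem_bot] at h2
    exact m_ne hK hm i h2
  unfold df
  omega

theorem sum_df (hK : 3 ≤ K) (hm : Indep m) (hΘ : ∀ i, m i ∈ Θ i) :
    ∑ i, df (Θ i) = n1 Θ + 2 * n2 Θ := by
  rw [n1_eq, n2_eq, Finset.mul_sum, ← Finset.sum_add_distrib]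
  refine Finset.sum_congr rfl fun i _ => ?_
  have := df_le_two Θ hK hm hΘ i
  split_ifs <;> omega

/-- the sum over triples of nonzero classes -/
theorem sumH (hm : Indep m) (hΘ : ∀ i, m i ∈ Θ i) :
    ∑ i, ∑ j, ∑ k, df (Θ i ⊔ Θ j ⊔ Θ k) ≤ 3 * K * ∑ i, df (Θ i) := by
  classical
  have h1 : ∀ i j k, df (Θ i ⊔ Θ j ⊔ Θ k) ≤ (if i = j then df (Θ k) else 0) +
      (if i = k then df (Θ j) else 0) + (if j = k then df (Θ i) else 0) := by
    intro i j k
    by_cases hij : i = j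
    · rw [if_pos hij]
      have : df (Θ i ⊔ Θ j ⊔ Θ k) ≤ df (Θ k) := df_anti le_sup_right
      omega
    by_cases hik : i = k
    · rw [if_pos hik]
      have : df (Θ i ⊔ Θ j ⊔ Θ k) ≤ df (Θ j) := df_anti (le_sup_right.trans le_sup_left)
      omega
    by_cases hjk : j = k
    · rw [if_pos hjk]
      have : df (Θ i ⊔ Θ j ⊔ Θ k) ≤ df (Θ i) := df_anti (le_sup_left.trans le_sup_left)
      omega
    have h2 : df (Θ i ⊔ Θ j ⊔ Θ k) = 0 := by
      by_contra h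
      have h3 : finrank ℂ (Θ i ⊔ Θ j ⊔ Θ k : Submodule ℂ (Fin 3 → ℂ)) ≤ 2 := by
        unfold df at h; omega
      exact toolA hm h3 hij hik hjk (mem_sup_left (mem_sup_left (hΘ i)))
        (mem_sup_left (mem_sup_right (hΘ j))) (mem_sup_right (hΘ k))
    omega
  calc ∑ i, ∑ j, ∑ k, df (Θ i ⊔ Θ j ⊔ Θ k)
      ≤ ∑ i, ∑ j, ∑ k, ((if i = j then df (Θ k) else 0) +
          (if i = k then df (Θ j) else 0) + (if j = k then df (Θ i) else 0)) :=
        Finset.sum_le_sum fun i _ => Finset.sum_le_sum fun j _ => Finset.sum_le_sum fun k _ =>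
          h1 i j k
    _ = (∑ i : Fin K, ∑ j : Fin K, ∑ k : Fin K, if i = j then df (Θ k) else 0) +
        (∑ i : Fin K, ∑ j : Fin K, ∑ k : Fin K, if i = k then df (Θ j) else 0) +
        (∑ i : Fin K, ∑ j : Fin K, ∑ k : Fin K, if j = k then df (Θ i) else 0) := by
        simp only [Finset.sum_add_distrib]
    _ = 3 * K * ∑ i, df (Θ i) := by
        have e1 : (∑ i : Fin K, ∑ j : Fin K, ∑ k : Fin K, if i = j then df (Θ k) else 0) =
            K * ∑ i, df (Θ i) := by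
          have : ∀ i j : Fin K, (∑ k : Fin K, if i = j then df (Θ k) else 0) =
              if i = j then ∑ k, df (Θ k) else 0 := by
            intro i j; split_ifs <;> simp
          simp only [this]
          simp
        have e2 : (∑ i : Fin K, ∑ j : Fin K, ∑ k : Fin K, if i = k then df (Θ j) else 0) =
            K * ∑ i, df (Θ i) := by
          simp
        have e3 : (∑ i : Fin K, ∑ j : Fin K, ∑ k : Fin K, if j = k then df (Θ i) else 0) =
            K * ∑ i, df (Θ i) := by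
          simp [Finset.mul_sum]
        rw [e1, e2, e3]
        ring

/-- off diagonal part of the sum over pairs of nonzero classes -/
noncomputable def gg (i j : Fin K) : ℕ := if i = j then 0 else df (Θ0 ⊔ Θ i ⊔ Θ j)

theorem gg_symm (i j : Fin K) : gg Θ0 Θ i j = gg Θ0 Θ j i := by
  unfold gg
  by_cases h : i = j
  · subst h; rfl
  · rw [if_neg h, if_neg (Ne.symm h)]
    congr 1
    rw [sup_assoc, sup_comm (Θ i), ← sup_assoc]

theorem gg_le_left (i j : Fin K) : gg Θ0 Θ i j ≤ df (Θ i) := by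
  unfold gg
  split_ifs
  · exact Nat.zero_le _
  · exact df_anti (le_sup_right.trans le_sup_left)

theorem gg_le_right (i j : Fin K) : gg Θ0 Θ i j ≤ df (Θ j) := by
  rw [gg_symm]; exact gg_le_left Θ0 Θ j i

theorem gg_le_one (hK : 3 ≤ K) (hm : Indep m) (hΘ : ∀ i, m i ∈ Θ i) (i j : Fin K) :
    gg Θ0 Θ i j ≤ 1 := by
  unfold gg
  split_ifs with h
  · exact Nat.zero_le _
  · by_contra h1
    have h2 : finrank ℂ (Θ0 ⊔ Θ i ⊔ Θ j : Submodule ℂ (Fin 3 → ℂ)) ≤ 1 := by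
      unfold df at h1; omega
    exact toolB hK hm h2 h (mem_sup_left (mem_sup_right (hΘ i))) (mem_sup_right (hΘ j))

theorem sumG_le : ∑ i, ∑ j, df (Θ0 ⊔ Θ i ⊔ Θ j) ≤ ∑ i, df (Θ i) + ∑ i, ∑ j, gg Θ0 Θ i j := by
  classical
  have h1 : ∀ i j, df (Θ0 ⊔ Θ i ⊔ Θ j) ≤ (if i = j then df (Θ i) else 0) + gg Θ0 Θ i j := by
    intro i j
    unfold gg
    split_ifs with h
    · have : df (Θ0 ⊔ Θ i ⊔ Θ j) ≤ df (Θ i) := df_anti (le_sup_right.trans le_sup_left)
      omega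
    · omega
  calc ∑ i, ∑ j, df (Θ0 ⊔ Θ i ⊔ Θ j)
      ≤ ∑ i, ∑ j, ((if i = j then df (Θ i) else 0) + gg Θ0 Θ i j) :=
        Finset.sum_le_sum fun i _ => Finset.sum_le_sum fun j _ => h1 i j
    _ = _ := by
        simp only [Finset.sum_add_distrib]
        simp

theorem gg_unique (hm : Indep m) (hΘ : ∀ i, m i ∈ Θ i) {i : Fin K} (hi : df (Θ i) = 1)
    {j j' : Fin K} (hj : gg Θ0 Θ i j ≠ 0) (hj' : gg Θ0 Θ i j' ≠ 0) : j = j' := by
  by_contra hne
  have key : ∀ j, gg Θ0 Θ i j ≠ 0 → i ≠ j ∧ m j ∈ Θ i := by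
    intro j hj
    have hij : i ≠ j := by
      intro h; apply hj; unfold gg; rw [if_pos h]
    refine ⟨hij, ?_⟩
    have h1 : df (Θ i) ≤ df (Θ0 ⊔ Θ i ⊔ Θ j) := by
      unfold gg at hj
      rw [if_neg hij] at hj
      omega
    have h2 := df_eq (le_sup_right.trans le_sup_left : Θ i ≤ Θ0 ⊔ Θ i ⊔ Θ j) h1
    rw [h2]
    exact mem_sup_right (hΘ j)
  have h1 : finrank ℂ (Θ i) ≤ 2 := by
    unfold df at hi; omega
  exact toolA hm h1 (key j hj).1 (key j' hj').1 hne (hΘ i) (key j hj).2 (key j' hj').2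

/-- pairs, `Θ0` arbitrary -/
theorem sumG3 (hK : 3 ≤ K) (hm : Indep m) (hΘ : ∀ i, m i ∈ Θ i) :
    ∑ i, ∑ j, gg Θ0 Θ i j ≤ 2 * n1 Θ + n2 Θ ^ 2 := by
  classical
  have hrow : ∀ i, df (Θ i) = 1 → ∑ j, gg Θ0 Θ i j ≤ 1 := fun i hi =>
    sum_le_one _ _ (fun j _ => gg_le_one Θ0 Θ hK hm hΘ i j)
      (fun j _ j' _ h h' => gg_unique Θ0 Θ hm hΘ hi h h')
  have h1 : ∀ i j, gg Θ0 Θ i j ≤ (if df (Θ i) = 1 then gg Θ0 Θ i j else 0) +
      (if df (Θ j) = 1 then gg Θ0 Θ i j else 0) +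
      (if df (Θ i) = 2 then 1 else 0) * (if df (Θ j) = 2 then 1 else 0) := by
    intro i j
    have e1 := gg_le_left Θ0 Θ i j
    have e2 := gg_le_right Θ0 Θ i j
    have e3 := gg_le_one Θ0 Θ hK hm hΘ i j
    have e4 := df_le_two Θ hK hm hΘ i
    have e5 := df_le_two Θ hK hm hΘ j
    by_cases c1 : df (Θ i) = 1
    · rw [if_pos c1]; omega
    by_cases c2 : df (Θ j) = 1
    · rw [if_pos c2]; omega
    by_cases c3 : df (Θ i) = 0
    · omega
    by_cases c4 : df (Θ j) = 0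
    · omega
    have c5 : df (Θ i) = 2 := by omega
    have c6 : df (Θ j) = 2 := by omega
    rw [if_pos c5, if_pos c6]
    omega
  have s1 : ∑ i, ∑ j, (if df (Θ i) = 1 then gg Θ0 Θ i j else 0) ≤ n1 Θ := by
    rw [n1_eq]
    refine Finset.sum_le_sum fun i _ => ?_
    split_ifs with h
    · exact hrow i h
    · simp
  have s2 : ∑ i, ∑ j, (if df (Θ j) = 1 then gg Θ0 Θ i j else 0) ≤ n1 Θ := by
    rw [Finset.sum_comm, n1_eq]
    refine Finset.sum_le_sum fun j _ => ?_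
    split_ifs with h
    · simp only [gg_symm Θ0 Θ _ j]
      exact hrow j h
    · simp
  have s3 : ∑ i, ∑ j, (if df (Θ i) = 2 then 1 else 0) * (if df (Θ j) = 2 then 1 else 0) =
      n2 Θ ^ 2 := by
    rw [n2_eq, sq, Finset.sum_mul_sum]
  calc ∑ i, ∑ j, gg Θ0 Θ i j
      ≤ ∑ i, ∑ j, ((if df (Θ i) = 1 then gg Θ0 Θ i j else 0) +
      (if df (Θ j) = 1 then gg Θ0 Θ i j else 0) +
      (if df (Θ i) = 2 then 1 else 0) * (if df (Θ j) = 2 then 1 else 0)) :=
        Finset.sum_le_sum fun i _ => Finset.sum_le_sum fun j _ => h1 i j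
    _ ≤ _ := by
        simp only [Finset.sum_add_distrib]
        omega

/-- pairs, `Θ0 ≠ ⊥` -/
theorem sumG2 (hK : 3 ≤ K) (hm : Indep m) (hΘ : ∀ i, m i ∈ Θ i) (h0 : Θ0 ≠ ⊥) :
    ∑ i, ∑ j, gg Θ0 Θ i j ≤ 2 * (n1 Θ + n2 Θ) := by
  classical
  obtain ⟨θ, hθ, hθ0⟩ := Submodule.exists_mem_ne_zero_of_ne_bot h0
  set sp : Fin K → Prop := fun i => θ ∈ span ℂ {m i} with hsp
  have hsp1 : ∀ i j, sp i → sp j → i = j := by
    intro i j hi hj
    by_contra hne
    have key : ∀ i, sp i → m i ∈ span ℂ {θ} := by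
      intro i hi
      obtain ⟨c, hc⟩ := mem_span_singleton.1 hi
      have hc0 : c ≠ 0 := by
        rintro rfl
        apply hθ0
        rw [← hc, zero_smul]
      rw [mem_span_singleton]
      exact ⟨c⁻¹, by rw [← hc, smul_smul, inv_mul_cancel₀ hc0, one_smul]⟩
    have h1 : finrank ℂ (span ℂ {θ}) ≤ 1 := by
      have := finrank_span_le_card (R := ℂ) ({θ} : Set (Fin 3 → ℂ))
      simpa using this
    exact toolB hK hm h1 hne (key i hi) (key j hj)
  have huniq : ∀ i, ¬ sp i → ∀ j j', gg Θ0 Θ i j ≠ 0 → gg Θ0 Θ i j' ≠ 0 → j = j' := by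
    intro i hi j j' hj hj'
    by_contra hne
    set U : Submodule ℂ (Fin 3 → ℂ) := span ℂ {θ} ⊔ span ℂ {m i} with hU
    have hUle : finrank ℂ U ≤ 2 := by
      have h1 := Submodule.finrank_add_le_finrank_add_finrank (span ℂ {θ}) (span ℂ {m i})
      have h2 := finrank_span_le_card (R := ℂ) ({θ} : Set (Fin 3 → ℂ))
      have h3 := finrank_span_le_card (R := ℂ) ({m i} : Set (Fin 3 → ℂ))
      simp at h2 h3
      rw [hU]
      omega
    have hUge : 2 ≤ finrank ℂ U := by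
      by_contra hlt
      have h1 : finrank ℂ (span ℂ {m i}) = 1 := finrank_span_singleton (m_ne hK hm i)
      have h2 : span ℂ {m i} = U := Submodule.eq_of_le_of_finrank_le le_sup_right (by omega)
      apply hi
      show θ ∈ span ℂ {m i}
      rw [h2]
      exact mem_sup_left (mem_span_singleton_self θ)
    have key : ∀ j, gg Θ0 Θ i j ≠ 0 → i ≠ j ∧ m j ∈ U := by
      intro j hj
      have hij : i ≠ j := by
        intro h; apply hj; unfold gg; rw [if_pos h]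
      refine ⟨hij, ?_⟩
      unfold gg at hj
      rw [if_neg hij] at hj
      have h1 : finrank ℂ (Θ0 ⊔ Θ i ⊔ Θ j : Submodule ℂ (Fin 3 → ℂ)) ≤ 2 := by
        unfold df at hj; omega
      have h2 : U ≤ Θ0 ⊔ Θ i ⊔ Θ j := by
        rw [hU, sup_le_iff, span_singleton_le_iff_mem, span_singleton_le_iff_mem]
        exact ⟨mem_sup_left (mem_sup_left hθ), mem_sup_left (mem_sup_right (hΘ i))⟩
      have h3 := Submodule.eq_of_le_of_finrank_le h2 (by omega)
      rw [h3]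
      exact mem_sup_right (hΘ j)
    exact toolA hm hUle (key j hj).1 (key j' hj').1 hne
      (mem_sup_right (mem_span_singleton_self _)) (key j hj).2 (key j' hj').2
  have hpos : ∀ i, (if df (Θ i) = 1 then 1 else 0) + (if df (Θ i) = 2 then 1 else 0) =
      if df (Θ i) = 0 then 0 else 1 := by
    intro i
    have := df_le_two Θ hK hm hΘ i
    split_ifs <;> omega
  have hN : n1 Θ + n2 Θ = ∑ i, if df (Θ i) = 0 then 0 else 1 := by
    rw [n1_eq, n2_eq, ← Finset.sum_add_distrib]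
    exact Finset.sum_congr rfl fun i _ => hpos i
  have hrow : ∀ i, ∑ j, gg Θ0 Θ i j ≤ (if df (Θ i) = 0 then 0 else 1) +
      (if sp i then n1 Θ + n2 Θ else 0) := by
    intro i
    by_cases hi : sp i
    · rw [if_pos hi, hN]
      have : ∑ j, gg Θ0 Θ i j ≤ ∑ j, if df (Θ j) = 0 then 0 else 1 := by
        refine Finset.sum_le_sum fun j _ => ?_
        have e2 := gg_le_right Θ0 Θ i j
        have e3 := gg_le_one Θ0 Θ hK hm hΘ i j
        split_ifs <;> omega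
      omega
    · rw [if_neg hi, add_zero]
      split_ifs with h
      · have : ∀ j ∈ univ, gg Θ0 Θ i j = 0 := fun j _ => by
          have := gg_le_left Θ0 Θ i j
          omega
        rw [Finset.sum_eq_zero this]
      · exact sum_le_one _ _ (fun j _ => gg_le_one Θ0 Θ hK hm hΘ i j)
          (fun j _ j' _ h h' => huniq i hi j j' h h')
  have hspc : ∑ i, (if sp i then n1 Θ + n2 Θ else 0) ≤ n1 Θ + n2 Θ := by
    have h1 : ∀ i, (if sp i then n1 Θ + n2 Θ else 0) = (if sp i then 1 else 0) * (n1 Θ + n2 Θ) := by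
      intro i; split_ifs <;> simp
    simp only [h1]
    rw [← Finset.sum_mul]
    have h2 : ∑ i, (if sp i then 1 else 0) ≤ 1 :=
      sum_le_one _ _ (fun i _ => by split_ifs <;> omega) (fun i _ j _ hi hj => by
        apply hsp1 i j
        · by_contra h; exact hi (if_neg h)
        · by_contra h; exact hj (if_neg h))
    calc _ ≤ 1 * (n1 Θ + n2 Θ) := Nat.mul_le_mul_right _ h2
      _ = _ := one_mul _
  calc ∑ i, ∑ j, gg Θ0 Θ i j
      ≤ ∑ i, ((if df (Θ i) = 0 then 0 else 1) + (if sp i then n1 Θ + n2 Θ else 0)) :=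
        Finset.sum_le_sum fun i _ => hrow i
    _ = (n1 Θ + n2 Θ) + ∑ i, (if sp i then n1 Θ + n2 Θ else 0) := by
        rw [Finset.sum_add_distrib, ← hN]
    _ ≤ _ := by omega

theorem sumE3 : ∑ i, df (Θ0 ⊔ Θ0 ⊔ Θ i) ≤ ∑ i, df (Θ i) :=
  Finset.sum_le_sum fun _ _ => df_anti le_sup_right

theorem sumE2 (hK : 3 ≤ K) (hm : Indep m) (hΘ : ∀ i, m i ∈ Θ i) (h0 : df Θ0 = 2) :
    ∑ i, df (Θ0 ⊔ Θ0 ⊔ Θ i) ≤ n1 Θ + n2 Θ + 1 := by
  classical
  have h1 : ∀ i, df (Θ0 ⊔ Θ0 ⊔ Θ i) ≤ (if df (Θ i) = 1 then 1 else 0) +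
      (if df (Θ i) = 2 then 1 else 0) + (if df (Θ0 ⊔ Θ0 ⊔ Θ i) = 2 then 1 else 0) := by
    intro i
    have e1 : df (Θ0 ⊔ Θ0 ⊔ Θ i) ≤ df (Θ i) := df_anti le_sup_right
    have e2 := df_le_two Θ hK hm hΘ i
    split_ifs <;> omega
  have h2 : ∑ i, (if df (Θ0 ⊔ Θ0 ⊔ Θ i) = 2 then 1 else 0) ≤ 1 := by
    refine sum_le_one _ _ (fun i _ => by split_ifs <;> omega) (fun i _ j _ hi hj => ?_)
    by_contra hne
    have key : ∀ i, df (Θ0 ⊔ Θ0 ⊔ Θ i) = 2 → m i ∈ Θ0 := by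
      intro i hi
      have h3 := df_eq (le_sup_left.trans le_sup_left : Θ0 ≤ Θ0 ⊔ Θ0 ⊔ Θ i) (by omega)
      rw [h3]
      exact mem_sup_right (hΘ i)
    have hi' : df (Θ0 ⊔ Θ0 ⊔ Θ i) = 2 := by
      by_contra h; exact hi (if_neg h)
    have hj' : df (Θ0 ⊔ Θ0 ⊔ Θ j) = 2 := by
      by_contra h; exact hj (if_neg h)
    have h4 : finrank ℂ Θ0 ≤ 1 := by
      unfold df at h0; omega
    exact toolB hK hm h4 hne (key i hi') (key j hj')
  calc ∑ i, df (Θ0 ⊔ Θ0 ⊔ Θ i)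
      ≤ ∑ i, ((if df (Θ i) = 1 then 1 else 0) +
      (if df (Θ i) = 2 then 1 else 0) + (if df (Θ0 ⊔ Θ0 ⊔ Θ i) = 2 then 1 else 0)) :=
        Finset.sum_le_sum fun i _ => h1 i
    _ = n1 Θ + n2 Θ + ∑ i, (if df (Θ0 ⊔ Θ0 ⊔ Θ i) = 2 then 1 else 0) := by
        rw [n1_eq, n2_eq, Finset.sum_add_distrib, Finset.sum_add_distrib]
    _ ≤ _ := by omega

theorem sumE1 (hm : Indep m) (hΘ : ∀ i, m i ∈ Θ i) (h0 : df Θ0 ≤ 1) :
    ∑ i, df (Θ0 ⊔ Θ0 ⊔ Θ i) ≤ 2 * df Θ0 := by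
  classical
  have hle : ∀ i, df (Θ0 ⊔ Θ0 ⊔ Θ i) ≤ df Θ0 := fun i =>
    df_anti (le_sup_left.trans le_sup_left)
  by_cases h : df Θ0 = 0
  · have : ∀ i ∈ univ, df (Θ0 ⊔ Θ0 ⊔ Θ i) = 0 := fun i _ => by
      have := hle i
      omega
    rw [Finset.sum_eq_zero this]
    exact Nat.zero_le _
  · have h1 : df Θ0 = 1 := by omega
    have h2 : ∑ i, df (Θ0 ⊔ Θ0 ⊔ Θ i) ≤
        (univ.filter fun i => df (Θ0 ⊔ Θ0 ⊔ Θ i) ≠ 0).card := by
      rw [Finset.card_filter]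
      refine Finset.sum_le_sum fun i _ => ?_
      have := hle i
      split_ifs <;> omega
    have h3 : (univ.filter fun i => df (Θ0 ⊔ Θ0 ⊔ Θ i) ≠ 0).card ≤ 2 := by
      by_contra hlt
      obtain ⟨a, b, c, ha, hb, hc, hab, hac, hbc⟩ := Finset.two_lt_card_iff.1 (not_le.1 hlt)
      have key : ∀ i ∈ (univ.filter fun i => df (Θ0 ⊔ Θ0 ⊔ Θ i) ≠ 0), m i ∈ Θ0 := by
        intro i hi
        have h5 := (Finset.mem_filter.1 hi).2
        have h3 := df_eq (le_sup_left.trans le_sup_left : Θ0 ≤ Θ0 ⊔ Θ0 ⊔ Θ i) (by omega)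
        rw [h3]
        exact mem_sup_right (hΘ i)
      have h4 : finrank ℂ Θ0 ≤ 2 := by
        unfold df at h1; omega
      exact toolA hm h4 hab hac hbc (key a ha) (key b hb) (key c hc)
    omega

end IneqAux

end Pool.Agent.Helper93.TP
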