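import Mathlib

/-! # Real inequalities for TP-7 (MP_7123bd_ag) -/

namespace Pool.Agent.Helper93.TP

namespace IneqAux

/-- the final real inequality, `d₀ = 3` -/
theorem fin3 {f φ R n1 n2 K sE sG sH : ℝ} (h0 : 43 / 100 ≤ f) (h1 : f ≤ 46 / 100) (hφ : 0 ≤ φ)
    (hsum : f + K * φ = 1) (hR : 3 * f / (2 + f) + 20 * φ ≤ R) (p1 : 0 ≤ n1) (p2 : 0 ≤ n2)
    (hK : n1 + n2 ≤ K) (hE : sE ≤ n1 + 2 * n2) (hG : sG ≤ (n1 + 2 * n2) + 2 * n1 + n2 ^ 2)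
    (hH : sH ≤ 3 * K * (n1 + 2 * n2)) :
    f ^ 3 * 3 + 3 * f ^ 2 * φ * sE + 3 * f * φ ^ 2 * sG + φ ^ 3 * sH ≤
      R * (f * 3 + φ * (n1 + 2 * n2)) := by
  set x := φ * n1 with hx
  set y := φ * n2 with hy
  have hx0 : 0 ≤ x := mul_nonneg hφ p1
  have hy0 : 0 ≤ y := mul_nonneg hφ p2
  have hf : 0 < f := by linarith
  have hz : 0 ≤ 1 - f - x - y := by
    have : φ * (n1 + n2) ≤ φ * K := mul_le_mul_of_nonneg_left hK hφ
    rw [hx, hy]; nlinarith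
  have hq : K * φ = 1 - f := by linarith
  have hmain : 3 * f ^ 3 + 3 * f ^ 2 * (x + 2 * y) + 3 * f * y ^ 2 ≤
      3 * f / (2 + f) * (3 * f + x + 2 * y) := by
    rw [div_mul_eq_mul_div, le_div_iff₀ (by linarith)]
    have e : 3 * f * (3 * f + x + 2 * y) -
        (3 * f ^ 3 + 3 * f ^ 2 * (x + 2 * y) + 3 * f * y ^ 2) * (2 + f) =
        3 * f * (x * (1 + f) + (1 - f - x - y) * (f * (3 + f)) +
          (2 + f) * (y * ((1 - f - x - y) + x))) := by ring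
    have : 0 ≤ 3 * f * (x * (1 + f) + (1 - f - x - y) * (f * (3 + f)) +
          (2 + f) * (y * ((1 - f - x - y) + x))) := by positivity
    linarith
  have t1 : 3 * f ^ 2 * φ * sE ≤ 3 * f ^ 2 * (x + 2 * y) := by
    calc 3 * f ^ 2 * φ * sE ≤ 3 * f ^ 2 * φ * (n1 + 2 * n2) := by gcongr
      _ = _ := by rw [hx, hy]; ring
  have t2 : 3 * f * φ ^ 2 * sG ≤ 3 * f * φ * (3 * x + 2 * y) + 3 * f * y ^ 2 := by
    calc 3 * f * φ ^ 2 * sG ≤ 3 * f * φ ^ 2 * ((n1 + 2 * n2) + 2 * n1 + n2 ^ 2) := by gcongr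
      _ = _ := by rw [hx, hy]; ring
  have t3 : φ ^ 3 * sH ≤ 3 * φ * (1 - f) * (x + 2 * y) := by
    calc φ ^ 3 * sH ≤ φ ^ 3 * (3 * K * (n1 + 2 * n2)) := by gcongr
      _ = 3 * φ * (K * φ) * (φ * n1 + 2 * (φ * n2)) := by ring
      _ = _ := by rw [hq]
  have hS : 0 ≤ 3 * f + x + 2 * y := by positivity
  have t4 : (3 * f / (2 + f) + 20 * φ) * (3 * f + x + 2 * y) ≤ R * (3 * f + x + 2 * y) :=
    mul_le_mul_of_nonneg_right hR hS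
  have t5 : R * (f * 3 + φ * (n1 + 2 * n2)) = R * (3 * f + x + 2 * y) := by
    rw [hx, hy]; ring
  rw [t5]
  have t6 : 3 * f * φ * (3 * x + 2 * y) + 3 * φ * (1 - f) * (x + 2 * y) ≤
      20 * φ * (3 * f + x + 2 * y) := by
    have u1 : 0 ≤ φ * x := mul_nonneg hφ hx0
    have u2 : 0 ≤ φ * y := mul_nonneg hφ hy0
    have u3 : 0 ≤ φ * f := mul_nonneg hφ hf.le
    nlinarith [mul_nonneg u1 hf.le, mul_nonneg u2 hf.le, mul_nonneg u1 (by linarith : 0 ≤ 1 - f),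
      mul_nonneg u2 (by linarith : 0 ≤ 1 - f)]
  linarith

/-- the final real inequality, `d₀ = 2` -/
theorem fin2 {f φ R n1 n2 K sE sG sH : ℝ} (h0 : 43 / 100 ≤ f) (h1 : f ≤ 46 / 100) (hφ : 0 ≤ φ)
    (hsum : f + K * φ = 1) (hR : 3 * f / (2 + f) + 20 * φ ≤ R) (p1 : 0 ≤ n1) (p2 : 0 ≤ n2)
    (hK : n1 + n2 ≤ K) (hE : sE ≤ n1 + n2 + 1) (hG : sG ≤ (n1 + 2 * n2) + 2 * (n1 + n2))
    (hH : sH ≤ 3 * K * (n1 + 2 * n2)) :
    f ^ 3 * 2 + 3 * f ^ 2 * φ * sE + 3 * f * φ ^ 2 * sG + φ ^ 3 * sH ≤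
      R * (f * 2 + φ * (n1 + 2 * n2)) := by
  set x := φ * n1 with hx
  set y := φ * n2 with hy
  have hx0 : 0 ≤ x := mul_nonneg hφ p1
  have hy0 : 0 ≤ y := mul_nonneg hφ p2
  have hf : 0 < f := by linarith
  have hz : 0 ≤ 1 - f - x - y := by
    have : φ * (n1 + n2) ≤ φ * K := mul_le_mul_of_nonneg_left hK hφ
    rw [hx, hy]; nlinarith
  have hq : K * φ = 1 - f := by linarith
  have hmain : 2 * f ^ 3 + 3 * f ^ 2 * (x + y) ≤
      3 * f / (2 + f) * (2 * f + x + 2 * y) := by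
    rw [div_mul_eq_mul_div, le_div_iff₀ (by linarith)]
    have e : 3 * f * (2 * f + x + 2 * y) -
        (2 * f ^ 3 + 3 * f ^ 2 * (x + y)) * (2 + f) =
        f * (x * (3 - f ^ 2) + y * (6 - f ^ 2) + (1 - f - x - y) * (2 * f * (3 + f))) := by ring
    have e2 : 0 ≤ 3 - f ^ 2 := by nlinarith
    have e3 : 0 ≤ 6 - f ^ 2 := by nlinarith
    have : 0 ≤ f * (x * (3 - f ^ 2) + y * (6 - f ^ 2) +
        (1 - f - x - y) * (2 * f * (3 + f))) := by positivity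
    linarith
  have t1 : 3 * f ^ 2 * φ * sE ≤ 3 * f ^ 2 * (x + y) + 3 * f ^ 2 * φ := by
    calc 3 * f ^ 2 * φ * sE ≤ 3 * f ^ 2 * φ * (n1 + n2 + 1) := by gcongr
      _ = _ := by rw [hx, hy]; ring
  have t2 : 3 * f * φ ^ 2 * sG ≤ 3 * f * φ * (3 * x + 4 * y) := by
    calc 3 * f * φ ^ 2 * sG ≤ 3 * f * φ ^ 2 * ((n1 + 2 * n2) + 2 * (n1 + n2)) := by gcongr
      _ = _ := by rw [hx, hy]; ring
  have t3 : φ ^ 3 * sH ≤ 3 * φ * (1 - f) * (x + 2 * y) := by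
    calc φ ^ 3 * sH ≤ φ ^ 3 * (3 * K * (n1 + 2 * n2)) := by gcongr
      _ = 3 * φ * (K * φ) * (φ * n1 + 2 * (φ * n2)) := by ring
      _ = _ := by rw [hq]
  have hS : 0 ≤ 2 * f + x + 2 * y := by positivity
  have t4 : (3 * f / (2 + f) + 20 * φ) * (2 * f + x + 2 * y) ≤ R * (2 * f + x + 2 * y) :=
    mul_le_mul_of_nonneg_right hR hS
  have t5 : R * (f * 2 + φ * (n1 + 2 * n2)) = R * (2 * f + x + 2 * y) := by
    rw [hx, hy]; ring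
  rw [t5]
  have t6 : 3 * f ^ 2 * φ + 3 * f * φ * (3 * x + 4 * y) + 3 * φ * (1 - f) * (x + 2 * y) ≤
      20 * φ * (2 * f + x + 2 * y) := by
    have u1 : 0 ≤ φ * x := mul_nonneg hφ hx0
    have u2 : 0 ≤ φ * y := mul_nonneg hφ hy0
    have u3 : 0 ≤ φ * f := mul_nonneg hφ hf.le
    nlinarith [mul_nonneg u1 hf.le, mul_nonneg u2 hf.le, mul_nonneg u1 (by linarith : 0 ≤ 1 - f),
      mul_nonneg u2 (by linarith : 0 ≤ 1 - f), mul_nonneg u3 (by linarith : 0 ≤ 1 - f)]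
  linarith

/-- the final real inequality, `d₀ ≤ 1` -/
theorem fin1 {f φ R n1 n2 K sE sG sH d : ℝ} (h0 : 43 / 100 ≤ f) (h1 : f ≤ 46 / 100) (hφ : 0 ≤ φ)
    (hsum : f + K * φ = 1) (hR : 3 * f / (2 + f) + 20 * φ ≤ R) (p1 : 0 ≤ n1) (p2 : 0 ≤ n2)
    (hd : 0 ≤ d) (hE : sE ≤ 2 * d) (hG : sG ≤ (n1 + 2 * n2) + 2 * (n1 + n2))
    (hH : sH ≤ 3 * K * (n1 + 2 * n2)) :
    f ^ 3 * d + 3 * f ^ 2 * φ * sE + 3 * f * φ ^ 2 * sG + φ ^ 3 * sH ≤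
      R * (f * d + φ * (n1 + 2 * n2)) := by
  set x := φ * n1 with hx
  set y := φ * n2 with hy
  have hx0 : 0 ≤ x := mul_nonneg hφ p1
  have hy0 : 0 ≤ y := mul_nonneg hφ p2
  have hf : 0 < f := by linarith
  have hq : K * φ = 1 - f := by linarith
  have hmain : f ^ 3 * d ≤ 3 * f / (2 + f) * (f * d + x + 2 * y) := by
    rw [div_mul_eq_mul_div, le_div_iff₀ (by linarith)]
    have e : 3 * f * (f * d + x + 2 * y) - f ^ 3 * d * (2 + f) =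
        f ^ 2 * d * (3 - f * (2 + f)) + 3 * f * (x + 2 * y) := by ring
    have e2 : 0 ≤ 3 - f * (2 + f) := by nlinarith
    have : 0 ≤ f ^ 2 * d * (3 - f * (2 + f)) + 3 * f * (x + 2 * y) := by positivity
    linarith
  have t1 : 3 * f ^ 2 * φ * sE ≤ 6 * f ^ 2 * φ * d := by
    calc 3 * f ^ 2 * φ * sE ≤ 3 * f ^ 2 * φ * (2 * d) := by gcongr
      _ = _ := by ring
  have t2 : 3 * f * φ ^ 2 * sG ≤ 3 * f * φ * (3 * x + 4 * y) := by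
    calc 3 * f * φ ^ 2 * sG ≤ 3 * f * φ ^ 2 * ((n1 + 2 * n2) + 2 * (n1 + n2)) := by gcongr
      _ = _ := by rw [hx, hy]; ring
  have t3 : φ ^ 3 * sH ≤ 3 * φ * (1 - f) * (x + 2 * y) := by
    calc φ ^ 3 * sH ≤ φ ^ 3 * (3 * K * (n1 + 2 * n2)) := by gcongr
      _ = 3 * φ * (K * φ) * (φ * n1 + 2 * (φ * n2)) := by ring
      _ = _ := by rw [hq]
  have hS : 0 ≤ f * d + x + 2 * y := by positivity
  have t4 : (3 * f / (2 + f) + 20 * φ) * (f * d + x + 2 * y) ≤ R * (f * d + x + 2 * y) :=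
    mul_le_mul_of_nonneg_right hR hS
  have t5 : R * (f * d + φ * (n1 + 2 * n2)) = R * (f * d + x + 2 * y) := by
    rw [hx, hy]; ring
  rw [t5]
  have t6 : 6 * f ^ 2 * φ * d + 3 * f * φ * (3 * x + 4 * y) + 3 * φ * (1 - f) * (x + 2 * y) ≤
      20 * φ * (f * d + x + 2 * y) := by
    have u1 : 0 ≤ φ * x := mul_nonneg hφ hx0
    have u2 : 0 ≤ φ * y := mul_nonneg hφ hy0
    have u3 : 0 ≤ φ * (f * d) := mul_nonneg hφ (mul_nonneg hf.le hd)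
    nlinarith [mul_nonneg u1 hf.le, mul_nonneg u2 hf.le, mul_nonneg u1 (by linarith : 0 ≤ 1 - f),
      mul_nonneg u2 (by linarith : 0 ≤ 1 - f), mul_nonneg u3 (by linarith : 0 ≤ 1 - f)]
  linarith

end IneqAux

end Pool.Agent.Helper93.TP
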