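import Pool.Agent.Helper93.TP.Defs2
import Pool.Agent.Helper70.TP.IneqReal
import Pool.Agent.Helper70.TP.IneqLin

/-! # TP-7: the inequality for the classes (MP_7123bd_ag) -/

namespace Pool.Agent.Helper93.TP

open Module Submodule Finset

open IneqAux in
theorem class_ineq {K : ℕ} {nn : Fin (K + 1) → Fin 3 → ℂ} (h : GoodDir nn)
    (Θ : Fin (K + 1) → Submodule ℂ (Fin 3 → ℂ)) (hΘ : ∀ c, nn c ∈ Θ c)
    {f0 φ R : ℝ} (h0 : 43 / 100 ≤ f0) (h1 : f0 ≤ 46 / 100) (hφ : 0 ≤ φ)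
    (hsum : f0 + K * φ = 1) (hR : 3 * f0 / (2 + f0) + 20 * φ ≤ R)
    (w : Fin (K + 1) → ℝ) (hw : ∀ c, w c = if c = 0 then f0 else φ) :
    ∑ a, ∑ b, ∑ c, w a * w b * w c * (3 - (finrank ℂ (Θ a ⊔ Θ b ⊔ Θ c : Submodule ℂ (Fin 3 → ℂ)) : ℝ))
      ≤ R * ∑ a, w a * (3 - (finrank ℂ (Θ a) : ℝ)) := by
  have hw0 : w 0 = f0 := by rw [hw, if_pos rfl]
  have hws : ∀ i : Fin K, w i.succ = φ := fun i => by rw [hw, if_neg (Fin.succ_ne_zero i)]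
  have hwn : ∀ c, 0 ≤ w c := by
    intro c
    rw [hw]
    split_ifs
    · linarith
    · exact hφ
  have key : ∀ X : Fin (K + 1) → ℝ, ∑ a, w a * X a = f0 * X 0 + φ * ∑ i : Fin K, X i.succ := by
    intro X
    rw [Fin.sum_univ_succ, hw0, Finset.mul_sum]
    simp only [hws]
  have hw1 : ∑ a, w a = 1 := by
    have := key (fun _ => 1)
    simp only [mul_one, Finset.sum_const, Finset.card_univ, Fintype.card_fin, nsmul_eq_mul] at this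
    rw [this]
    linarith
  simp only [← df_cast]
  have hf0R : 0 ≤ 3 * f0 / (2 + f0) := by positivity
  have e1 : ∑ a, ∑ b, ∑ c, w a * w b * w c * ((df (Θ a ⊔ Θ b ⊔ Θ c) : ℕ) : ℝ) =
      ∑ a, w a * ∑ b, w b * ∑ c, w c * ((df (Θ a ⊔ Θ b ⊔ Θ c) : ℕ) : ℝ) := by
    simp only [Finset.mul_sum, mul_assoc]
  rw [e1]
  by_cases hφ20 : 1 / 20 ≤ φ
  · -- large `φ`
    have hR1 : 1 ≤ R := by linarith
    calc ∑ a, w a * ∑ b, w b * ∑ c, w c * ((df (Θ a ⊔ Θ b ⊔ Θ c) : ℕ) : ℝ)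
        ≤ ∑ a, w a * ∑ b, w b * ∑ c, w c * ((df (Θ a) : ℕ) : ℝ) := by
          refine Finset.sum_le_sum fun a _ => mul_le_mul_of_nonneg_left ?_ (hwn a)
          refine Finset.sum_le_sum fun b _ => mul_le_mul_of_nonneg_left ?_ (hwn b)
          refine Finset.sum_le_sum fun c _ => mul_le_mul_of_nonneg_left ?_ (hwn c)
          exact_mod_cast df_anti (le_sup_left.trans le_sup_left)
      _ = ∑ a, w a * ((df (Θ a) : ℕ) : ℝ) := by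
          simp only [← Finset.sum_mul, hw1, one_mul]
      _ = 1 * ∑ a, w a * ((df (Θ a) : ℕ) : ℝ) := (one_mul _).symm
      _ ≤ _ := by
          refine mul_le_mul_of_nonneg_right hR1 (Finset.sum_nonneg fun a _ => ?_)
          exact mul_nonneg (hwn a) (Nat.cast_nonneg _)
  · have hK : 3 ≤ K := by
      by_contra hlt
      have h2 : (K : ℝ) ≤ 2 := by exact_mod_cast (by omega : K ≤ 2)
      nlinarith
    set m : Fin K → Fin 3 → ℂ := fun i => nn i.succ with hmdef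
    have hm : Indep m := fun a b c hab hac hbc =>
      h.2 a.succ b.succ c.succ (Fin.succ_ne_zero _) (Fin.succ_ne_zero _) (Fin.succ_ne_zero _)
        (fun e => hab (Fin.succ_injective _ e)) (fun e => hac (Fin.succ_injective _ e))
        (fun e => hbc (Fin.succ_injective _ e))
    set Θ0 := Θ 0 with hΘ0
    set T : Fin K → Submodule ℂ (Fin 3 → ℂ) := fun i => Θ i.succ with hT
    have hmT : ∀ i, m i ∈ T i := fun i => hΘ _
    have s1 : ∀ i, df (Θ0 ⊔ T i ⊔ Θ0) = df (Θ0 ⊔ Θ0 ⊔ T i) := fun i => by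
      rw [sup_right_comm]
    have s2 : ∀ i, df (T i ⊔ Θ0 ⊔ Θ0) = df (Θ0 ⊔ Θ0 ⊔ T i) := fun i => by
      rw [sup_assoc, sup_comm]
    have s3 : ∀ i j, df (T i ⊔ Θ0 ⊔ T j) = df (Θ0 ⊔ T i ⊔ T j) := fun i j => by
      rw [sup_comm (T i)]
    have s4 : ∀ i j, df (T i ⊔ T j ⊔ Θ0) = df (Θ0 ⊔ T i ⊔ T j) := fun i j => by
      rw [sup_comm, sup_assoc]
    have e2 : ∑ a, w a * ∑ b, w b * ∑ c, w c * ((df (Θ a ⊔ Θ b ⊔ Θ c) : ℕ) : ℝ) =
        f0 ^ 3 * ((df Θ0 : ℕ) : ℝ) + 3 * f0 ^ 2 * φ * ((∑ i, df (Θ0 ⊔ Θ0 ⊔ T i) : ℕ) : ℝ) +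
        3 * f0 * φ ^ 2 * ((∑ i, ∑ j, df (Θ0 ⊔ T i ⊔ T j) : ℕ) : ℝ) +
        φ ^ 3 * ((∑ i, ∑ j, ∑ k, df (T i ⊔ T j ⊔ T k) : ℕ) : ℝ) := by
      simp only [key]
      change f0 * (f0 * (f0 * ((df (Θ0 ⊔ Θ0 ⊔ Θ0) : ℕ) : ℝ) +
          φ * ∑ k, ((df (Θ0 ⊔ Θ0 ⊔ T k) : ℕ) : ℝ)) +
          φ * ∑ j, (f0 * ((df (Θ0 ⊔ T j ⊔ Θ0) : ℕ) : ℝ) +
            φ * ∑ k, ((df (Θ0 ⊔ T j ⊔ T k) : ℕ) : ℝ))) +
        φ * ∑ i, (f0 * (f0 * ((df (T i ⊔ Θ0 ⊔ Θ0) : ℕ) : ℝ) +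
          φ * ∑ k, ((df (T i ⊔ Θ0 ⊔ T k) : ℕ) : ℝ)) +
          φ * ∑ j, (f0 * ((df (T i ⊔ T j ⊔ Θ0) : ℕ) : ℝ) +
            φ * ∑ k, ((df (T i ⊔ T j ⊔ T k) : ℕ) : ℝ))) = _
      simp only [s1, s2, s3, s4, sup_idem, Finset.sum_add_distrib, ← Finset.mul_sum, Nat.cast_sum]
      ring
    have e3 : ∑ a, w a * ((df (Θ a) : ℕ) : ℝ) =
        f0 * ((df Θ0 : ℕ) : ℝ) + φ * ((n1 T : ℝ) + 2 * (n2 T : ℝ)) := by
      rw [key]
      have := sum_df T hK hm hmT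
      have h2 : ∑ i, ((df (T i) : ℕ) : ℝ) = (n1 T : ℝ) + 2 * (n2 T : ℝ) := by
        exact_mod_cast this
      rw [← h2]
    rw [e2, e3]
    have p1 : (0 : ℝ) ≤ n1 T := Nat.cast_nonneg _
    have p2 : (0 : ℝ) ≤ n2 T := Nat.cast_nonneg _
    have hKn : (n1 T : ℝ) + n2 T ≤ K := by exact_mod_cast n12_le T
    have hsd := sum_df T hK hm hmT
    have hH : ((∑ i, ∑ j, ∑ k, df (T i ⊔ T j ⊔ T k) : ℕ) : ℝ) ≤
        3 * K * ((n1 T : ℝ) + 2 * n2 T) := by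
      have := sumH T hm hmT
      rw [hsd] at this
      exact_mod_cast this
    have hG0 := sumG_le Θ0 T
    rw [hsd] at hG0
    have hd3 : df Θ0 ≤ 3 := by unfold df; omega
    by_cases c3 : df Θ0 = 3
    · have hE := sumE3 Θ0 T
      rw [hsd] at hE
      have hG := sumG3 Θ0 T hK hm hmT
      rw [c3]
      push_cast
      refine fin3 h0 h1 hφ hsum hR p1 p2 hKn ?_ ?_ (by exact_mod_cast hH)
      · exact_mod_cast hE
      · exact_mod_cast (by omega : ∑ i, ∑ j, df (Θ0 ⊔ T i ⊔ T j) ≤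
          (n1 T + 2 * n2 T) + 2 * n1 T + n2 T ^ 2)
    · have hne : Θ0 ≠ ⊥ := by
        intro hbot
        apply c3
        unfold df
        rw [hbot, finrank_bot]
      have hG := sumG2 Θ0 T hK hm hmT hne
      have hG' : ((∑ i, ∑ j, df (Θ0 ⊔ T i ⊔ T j) : ℕ) : ℝ) ≤
          ((n1 T : ℝ) + 2 * n2 T) + 2 * (n1 T + n2 T) := by
        exact_mod_cast (by omega : ∑ i, ∑ j, df (Θ0 ⊔ T i ⊔ T j) ≤
          (n1 T + 2 * n2 T) + 2 * (n1 T + n2 T))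
      by_cases c2 : df Θ0 = 2
      · have hE := sumE2 Θ0 T hK hm hmT c2
        rw [c2]
        push_cast
        refine fin2 h0 h1 hφ hsum hR p1 p2 hKn ?_ (by exact_mod_cast hG') (by exact_mod_cast hH)
        exact_mod_cast hE
      · have hE := sumE1 Θ0 T hm hmT (by omega)
        refine fin1 h0 h1 hφ hsum hR p1 p2 (Nat.cast_nonneg _) ?_ hG' hH
        exact_mod_cast hE

end Pool.Agent.Helper93.TP
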